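import Pool.Agent.helper6.KR.Defs

/-!
# Kreisel's conjecture with bounded instantiation: definitions
-/

set_option autoImplicit false

namespace Pool.Agent.KR

/-- Depth of nesting of `+` and `·` in a term; `S` is free, so numerals have depth `0`. -/
def Tm.dep : Tm → ℕ
  | .var _ => 0
  | .zero => 0
  | .succ t => t.dep
  | .op _ s t => max s.dep t.dep + 1

/-- The axioms of Peano arithmetic with equality, without any restriction: the equality axioms and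
the defining axioms of `S, +, ·`, and successor induction, Leibniz and the least number principle
for all formulas. -/
inductive AxF : Fm → Prop
  | basic {A : Fm} : BAx A → AxF A
  | ind (ψ : Fm) : AxF (INDf ψ)
  | leib (ψ : Fm) : AxF (LEIBf ψ)
  | lnp (ψ : Fm) : AxF (LNPf ψ)

/-- `LKI K Ax n Γ Δ`: the sequent `Γ ⟹ Δ` has a sequent calculus derivation consisting of `n`
sequents (as `LK Ax n Γ Δ`) in which for every instance of `∀`-left and `∃`-right the substituted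
term has at most `K` nested symbols `+`, `·`, or the quantified variable does not occur under
`+` or `·` in the principal formula. -/
inductive LKI (K : ℕ) (Ax : Fm → Prop) : ℕ → List Fm → List Fm → Prop
  | id (A : Fm) : LKI K Ax 1 [A] [A]
  | ax {A : Fm} : Ax A → LKI K Ax 1 [] [A]
  | botL : LKI K Ax 1 [.bot] []
  | struct {n : ℕ} {Γ Δ Γ' Δ' : List Fm} : LKI K Ax n Γ Δ → Γ ⊆ Γ' → Δ ⊆ Δ' → LKI K Ax (n + 1) Γ' Δ'
  | cut {m n : ℕ} {Γ Δ : List Fm} (A : Fm) :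
      LKI K Ax m Γ (A :: Δ) → LKI K Ax n (A :: Γ) Δ → LKI K Ax (m + n + 1) Γ Δ
  | andL {n : ℕ} {Γ Δ : List Fm} {A B : Fm} :
      LKI K Ax n (A :: B :: Γ) Δ → LKI K Ax (n + 1) (.and A B :: Γ) Δ
  | andR {m n : ℕ} {Γ Δ : List Fm} {A B : Fm} :
      LKI K Ax m Γ (A :: Δ) → LKI K Ax n Γ (B :: Δ) → LKI K Ax (m + n + 1) Γ (.and A B :: Δ)
  | orL {m n : ℕ} {Γ Δ : List Fm} {A B : Fm} :
      LKI K Ax m (A :: Γ) Δ → LKI K Ax n (B :: Γ) Δ → LKI K Ax (m + n + 1) (.or A B :: Γ) Δ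
  | orR {n : ℕ} {Γ Δ : List Fm} {A B : Fm} :
      LKI K Ax n Γ (A :: B :: Δ) → LKI K Ax (n + 1) Γ (.or A B :: Δ)
  | impL {m n : ℕ} {Γ Δ : List Fm} {A B : Fm} :
      LKI K Ax m Γ (A :: Δ) → LKI K Ax n (B :: Γ) Δ → LKI K Ax (m + n + 1) (.imp A B :: Γ) Δ
  | impR {n : ℕ} {Γ Δ : List Fm} {A B : Fm} :
      LKI K Ax n (A :: Γ) (B :: Δ) → LKI K Ax (n + 1) Γ (.imp A B :: Δ)
  | allL {n : ℕ} {Γ Δ : List Fm} {A : Fm} (t : Tm) : t.dep ≤ K ∨ A.nest 0 0 →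
      LKI K Ax n (A.inst t :: Γ) Δ → LKI K Ax (n + 1) (.all A :: Γ) Δ
  | allR {n : ℕ} {Γ Δ : List Fm} {A : Fm} :
      LKI K Ax n (Γ.map Fm.shift) (A :: Δ.map Fm.shift) → LKI K Ax (n + 1) Γ (.all A :: Δ)
  | exL {n : ℕ} {Γ Δ : List Fm} {A : Fm} :
      LKI K Ax n (A :: Γ.map Fm.shift) (Δ.map Fm.shift) → LKI K Ax (n + 1) (.ex A :: Γ) Δ
  | exR {n : ℕ} {Γ Δ : List Fm} {A : Fm} (t : Tm) : t.dep ≤ K ∨ A.nest 0 0 →
      LKI K Ax n Γ (A.inst t :: Δ) → LKI K Ax (n + 1) Γ (.ex A :: Δ)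

end Pool.Agent.KR
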