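import Pool.Agent.helper97.KR2.PG
import Pool.Agent.helper6.KR.Main

/-!
# Kreisel's conjecture with bounded instantiation: the theorem
-/

set_option autoImplicit false

namespace Pool.Agent.KR

private theorem BI_ev {M : Type} (𝔄 : AStr M) (m : ℕ) (ρ : ℕ → M) :
    (Tm.succ^[m] (.var 0)).ev 𝔄 ρ = 𝔄.succ^[m] (ρ 0) := by
  induction m with
  | zero => rfl
  | succ n ih =>
    rw [Function.iterate_succ_apply', Function.iterate_succ_apply', ← ih]
    rfl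

private theorem BI_std {M : Type} [PAM M] (n : ℕ) : (std M).succ^[n] (std M).zero = (n : M) := by
  induction n with
  | zero =>
    show (0 : M) = ((0 : ℕ) : M)
    rw [Nat.cast_zero]
  | succ n ih =>
    rw [Function.iterate_succ_apply', ih, Nat.cast_succ]
    rfl

/-- the end of the proof, from derivations in the calculus `GC` -/
theorem BI_FIN (h1 : SB_stmt) (h2 : PM_stmt) (h3 : IT_stmt) (h4 : TSX_stmt) (h5 : NUM2_stmt)
    (h9 : TR1_stmt) (h10 : TR2_stmt) (h11 : CLM_stmt) (h12 : K4_stmt)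
    (h13 : CPT_stmt) (B K k : ℕ) (φ : Fm) (hφ : φ.bd 1)
    (hLK : ∀ r j : ℕ, 0 < j → ∃ t : ℕ, GC (AxB B K) k [] [φ.inst (num (r + j * t))]) :
    ∃ m l : ℕ, LK PAx l [] [.all (shiftS m φ)] := by
  by_contra hno
  -- a counterexample to each shifted formula
  have hm : ∀ m : ℕ, ∃ (M : Type) (𝔄 : AStr M) (ρ : ℕ → M), IsPA 𝔄 ∧
      ¬ φ.sat 𝔄 (scons (𝔄.succ^[m] (ρ 0)) (fun i => ρ (i + 1))) := by
    intro m
    by_contra hc
    apply hno
    obtain ⟨l, hl⟩ := h12 (shiftS m φ) (fun M 𝔄 hPA ρ => by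
      by_contra hs
      apply hc
      refine ⟨M, 𝔄, ρ, hPA, fun hsat => hs ?_⟩
      unfold shiftS
      rw [(h1 M 𝔄).2.2.1]
      have e : (fun i => ((scons (Tm.succ^[m] (.var 0)) (fun i => .var (i + 1)) : ℕ → Tm) i).ev 𝔄 ρ) =
          scons (𝔄.succ^[m] (ρ 0)) (fun i => ρ (i + 1)) := by
        funext i
        cases i with
        | zero => exact BI_ev 𝔄 m ρ
        | succ i => rfl
      rw [e]
      exact hsat)
    exact ⟨m, l, hl⟩
  obtain ⟨M, 𝔄, ρ, hPA, hnot, hns⟩ := h13 φ hm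
  obtain ⟨inst, rfl⟩ := h2 M 𝔄 hPA
  have hc : ∀ n : ℕ, ρ 0 ≠ (n : M) := fun n => by
    rw [← BI_std n]
    exact hns n
  choose r hr hr2 using h5 M (ρ 0) hc
  have ht : ∀ j : ℕ, ∃ t : ℕ, GC (AxB B K) k [] [φ.inst (num (r j + j.factorial * j + j.factorial * t))] :=
    fun j => hLK (r j + j.factorial * j) j.factorial (Nat.factorial_pos j)
  choose t ht' using ht
  obtain ⟨ν, hν⟩ : ∃ ν : ℕ → ℕ, ∀ j, ν j = r j + j.factorial * j + j.factorial * t j := ⟨_, fun _ => rfl⟩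
  have hν1 : ∀ j, j ≤ ν j := by
    intro j
    rw [hν]
    have : 1 * j ≤ j.factorial * j := Nat.mul_le_mul_right j (Nat.factorial_pos j)
    omega
  have hν2 : ∀ j d : ℕ, 0 < d → d ∣ j.factorial → ∃ s : M, ρ 0 = (ν j : M) + (d : M) * s := by
    intro j d hd hdj
    refine hr2 j (ν j) d ?_ hd hdj
    rw [hν, add_assoc, ← Nat.mul_add, Nat.add_mul_mod_self_left, Nat.mod_eq_of_lt (hr j)]
  have hG : ∀ j : ℕ, GC (AxB B K) k [] [φ.inst (num (ν j))] := by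
    intro j
    rw [hν j]
    exact ht' j
  obtain ⟨σ, hσ, hs⟩ := h11 B K k 0 [] [fun n => φ.inst (num (ν n))]
    (fun n => hG n)
  obtain ⟨T⟩ := h4 M
  have hσi : ∀ n, n ≤ σ n := hσ.id_le
  have a1 : ν (σ 0) < ν (σ (ν (σ 0) + 1)) := by
    have e1 := hσi (ν (σ 0) + 1)
    have e2 := hν1 (σ (ν (σ 0) + 1))
    omega
  obtain ⟨d, hd⟩ : ∃ d : ℕ, d = ν (σ (ν (σ 0) + 1)) - ν (σ 0) := ⟨_, rfl⟩
  have hd0 : 0 < d := by omega
  obtain ⟨s, hs'⟩ := hν2 (σ (max (ν (σ 0) + 1 + 1) d)) d hd0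
    (Nat.dvd_factorial hd0 ((le_max_right _ _).trans (hσi _)))
  refine hnot (FIN_core h1 h9 h10 φ hφ M T s ν σ ![0, ν (σ 0) + 1, max (ν (σ 0) + 1 + 1) d] hs
    (by simp) ?_ ?_ ρ ?_)
  · change ν (σ 0) + 1 < max (ν (σ 0) + 1 + 1) d
    exact lt_of_lt_of_le (Nat.lt_succ_self _) (le_max_left _ _)
  · exact a1.le
  · rw [hs', hd]
    rfl

theorem BI_AxF_sat (A : Fm) (hA : AxF A) (M : Type) (𝔄 : AStr M) (hPA : IsPA 𝔄) (ρ : ℕ → M) :
    A.sat 𝔄 ρ := by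
  have h3 := AXS SB Main_PM Main_IT
  cases hA with
  | basic hB => exact h3 0 _ (AxK.basic hB) M 𝔄 hPA ρ
  | ind ψ => exact h3 ψ.md _ (AxK.ind ψ (BI_nest le_rfl)) M 𝔄 hPA ρ
  | leib ψ => exact h3 ψ.md _ (AxK.leib ψ (BI_nest le_rfl)) M 𝔄 hPA ρ
  | lnp ψ => exact h3 0 _ (AxK.lnp ψ) M 𝔄 hPA ρ

/-- from a derivation of the shifted formula and the standard instances to the formula -/
theorem BI_FINF (φ : Fm) (hφ : φ.bd 1) (hall : ∀ n : ℕ, ∃ l : ℕ, LK AxF l [] [φ.inst (num n)])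
    (hS : ∃ m l : ℕ, LK PAx l [] [.all (shiftS m φ)]) : ∃ l : ℕ, LK PAx l [] [.all φ] := by
  have h1 : SB_stmt := SB
  have h2 : SND_stmt := SND SB
  obtain ⟨m, l, hm⟩ := hS
  refine Main_K4 φ (fun M 𝔄 hPA ρ => ?_)
  have hcong : ∀ ρ' : ℕ → M, ρ' 0 = ρ 0 → φ.sat 𝔄 ρ' → φ.sat 𝔄 ρ := by
    intro ρ' e h
    refine ((h1 M 𝔄).2.2.2.2.1 1 φ ρ' ρ hφ (fun i hi => ?_)).1 h
    have : i = 0 := by omega
    rw [this, e]
  rcases FINF_cases h1 hPA m (ρ 0) with ⟨n, hn, hx⟩ | ⟨y, hx⟩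
  · obtain ⟨l', hl'⟩ := hall n
    obtain ⟨A, hA, hs⟩ := h2 AxF M 𝔄 (fun A hA ρ => BI_AxF_sat A hA M 𝔄 hPA ρ) l' _ _ hl' ρ (by simp)
    rw [List.mem_singleton] at hA
    subst hA
    have hs' := ((h1 M 𝔄).2.2.1 φ _ ρ).1 hs
    refine hcong _ ?_ hs'
    change (num n).ev 𝔄 ρ = ρ 0
    rw [FIN_num_ev, hx]
  · obtain ⟨A, hA, hs⟩ := h2 PAx M 𝔄 (fun A hA ρ => hPA A hA ρ) l _ _ hm ρ (by simp)
    rw [List.mem_singleton] at hA
    subst hA
    have hs' := ((h1 M 𝔄).2.2.1 φ _ (scons y ρ)).1 (hs y trivial)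
    refine hcong _ ?_ hs'
    change (Tm.succ^[m] (.var 0)).ev 𝔄 (scons y ρ) = ρ 0
    rw [FINF_Sm, hx]
    rfl

theorem BI_num_dep (n : ℕ) : (num n).dep = 0 := by
  induction n with
  | zero => rfl
  | succ n ih =>
    unfold num at ih ⊢
    rw [Function.iterate_succ_apply']
    exact ih

theorem BI_md_subst {A : Fm} : ∀ {σ : ℕ → Tm}, (∀ i, (σ i).dep = 0) → (A.subst σ).md = A.md := by
  have key : ∀ (t : Tm) (σ : ℕ → Tm), (∀ i, (σ i).dep = 0) → (t.subst σ).dep = t.dep := by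
    intro t σ h
    have h1 := BI_dep_add 0 t σ (fun i => (h i).le)
    have h2 := BI_dep_le t σ
    omega
  induction A with
  | eq s t =>
    intro σ h
    simp only [Fm.subst, Fm.md]
    rw [key s σ h, key t σ h]
  | bot => exact fun _ => rfl
  | bin c A B ihA ihB =>
    intro σ h
    simp only [Fm.subst, Fm.md]
    rw [ihA h, ihB h]
  | qu q A ih =>
    intro σ h
    simp only [Fm.subst, Fm.md]
    refine ih (fun i => ?_)
    cases i with
    | zero => rfl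
    | succ i =>
      show (σ i).shift.dep = 0
      rw [BI_dep_shift]; exact h i

theorem BI_AxB_mono {B K K' : ℕ} (h : K ≤ K') (A : Fm) (hA : AxB B K A) : AxB B K' A := by
  cases hA with
  | basic hB => exact AxB.basic hB
  | ind ψ hd hn => exact AxB.ind ψ hd (BI_nest_mono h hn)
  | leib ψ hd hn => exact AxB.leib ψ hd (BI_nest_mono h hn)
  | lnp ψ => exact AxB.lnp ψ

/-- **Kreisel's conjecture for derivations with bounded instantiation** -/
theorem BI_main (K k : ℕ) (φ : Fm) (hφ : φ.bd 1)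
    (hall : ∀ n : ℕ, ∃ l : ℕ, LK AxF l [] [φ.inst (num n)])
    (hk : ∀ r j : ℕ, 0 < j → ∃ t l : ℕ, l ≤ k ∧ LKI K AxF l [] [φ.inst (num (r + j * t))]) :
    ∃ l : ℕ, LK PAx l [] [.all φ] := by
  refine BI_FINF φ hφ hall ?_
  obtain ⟨X0, hX0⟩ := PR1.2.2.2.2 φ
  obtain ⟨B, hB⟩ : ∃ B, B = 8 * k + X0.length := ⟨_, rfl⟩
  obtain ⟨N, hN⟩ : ∃ N, N = k * 2 ^ (B + 1) := ⟨_, rfl⟩
  obtain ⟨h0, hh0⟩ : ∃ h0, h0 = max 2 φ.md := ⟨_, rfl⟩
  refine BI_FIN SB Main_PM Main_IT Main_TSX (NUM2 Main_IT) Main_TR1 TR2 Main_CLM Main_K4 CPT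
    B (h0 + (N + 1) * (K + 1)) k φ hφ ?_
  intro r j hj
  obtain ⟨t, l, hl, hd⟩ := hk r j hj
  refine ⟨t, ?_⟩
  obtain ⟨X, hX, hY⟩ := BI_PG GW PR1 K l [] [φ.inst (num (r + j * t))] hd
  obtain ⟨L, hL, hg⟩ := hY (X ++ X0) B (List.subset_append_left _ _) (by
    rw [List.length_append, hB]; omega)
  have hLN : L.length ≤ N := by
    rw [hN]
    exact hL.trans (Nat.mul_le_mul_right _ hl)
  obtain ⟨H, hH1, hH2, hH3⟩ := BI_gap h0 K N L hLN
  have g := hg H (by omega) hH3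
  have e : [φ.inst (num (r + j * t))].map (fun A => rF H (prune (X ++ X0) A)) =
      [φ.inst (num (r + j * t))] := by
    rw [List.map_singleton]
    have e1 : prune (X ++ X0) (φ.inst (num (r + j * t))) = φ.inst (num (r + j * t)) :=
      hX0 (X ++ X0) (List.subset_append_right _ _) _
    have e2 : rF H (φ.inst (num (r + j * t))) = φ.inst (num (r + j * t)) := by
      refine BI_rF_id ?_
      have e3 : (φ.inst (num (r + j * t))).md = φ.md := by
        unfold Fm.inst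
        refine BI_md_subst (fun i => ?_)
        cases i with
        | zero => exact BI_num_dep _
        | succ i => rfl
      rw [e3]
      omega
    rw [e1, e2]
  rw [e] at g
  exact GW _ _ l k _ _ _ _ (BI_AxB_mono hH2) g hl (by simp) (by simp)

end Pool.Agent.KR
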