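import Pool.Agent.helper97.KR2.Red
import Pool.Agent.helper6.KR.PR2

/-!
# From bounded instantiation derivations to the pruned and reduced calculus
-/

set_option autoImplicit false

namespace Pool.Agent.KR

/-! ### Axioms -/

theorem BI_bax {H : ℕ} (hH : 2 ≤ H) {A : Fm} (h : BAx A) : A.md ≤ H := by
  have h2 : A.md ≤ 2 := by
    cases h <;> simp [Fm.md, Tm.dep, Fm.all, Fm.imp, Fm.neg]
  omega

theorem BI_rF_IND (H : ℕ) (ψ : Fm) : rF H (INDf ψ) = INDf (rF H ψ) := by
  have e1 : rF H (ψ.inst .zero) = (rF H ψ).inst .zero := by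
    unfold Fm.inst
    rw [BI_rF_subst (BI_FOK_zero fun i => by cases i <;> rfl)]
    congr 1
    funext i
    cases i <;> rfl
  have e2 : rF H (ψ.subst (scons (.succ (.var 0)) (fun i => .var (i + 1)))) =
      (rF H ψ).subst (scons (.succ (.var 0)) (fun i => .var (i + 1))) := by
    rw [BI_rF_subst (BI_FOK_zero fun i => by cases i <;> rfl)]
    congr 1
    funext i
    cases i <;> rfl
  unfold INDf
  simp only [rF]
  rw [e1, e2]

theorem BI_rF_LEIB {H : ℕ} (ψ : Fm) : rF H (LEIBf ψ) = LEIBf (rF H ψ) := by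
  have e1 : ∀ j : ℕ, rF H (ψ.subst (scons (.var j) (fun i => .var (i + 2)))) =
      (rF H ψ).subst (scons (.var j) (fun i => .var (i + 2))) := by
    intro j
    rw [BI_rF_subst (BI_FOK_zero fun i => by cases i <;> rfl)]
    congr 1
    funext i
    cases i <;> rfl
  unfold LEIBf
  simp only [rF]
  rw [e1, e1]
  rfl

theorem BI_rF_LNP {H : ℕ} (hH : 2 ≤ H) (ψ : Fm) : rF H (LNPf ψ) = LNPf (rF H ψ) := by
  have e1 : rF H (ψ.subst (scons (.var 0) (fun i => .var (i + 2)))) =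
      (rF H ψ).subst (scons (.var 0) (fun i => .var (i + 2))) := by
    rw [BI_rF_subst (BI_FOK_zero fun i => by cases i <;> rfl)]
    congr 1
    funext i
    cases i <;> rfl
  have e2 : rF H (ltf (.var 0) (.var 1)) = ltf (.var 0) (.var 1) := by
    refine BI_rF_id ?_
    have : (ltf (.var 0) (.var 1)).md ≤ 1 := by
      simp [ltf, Fm.md, Tm.dep, Tm.shift, Tm.subst]
    omega
  unfold LNPf
  simp only [rF]
  rw [e1, e2]

/-- **PR2 for the unrestricted axioms** -/
theorem BI_PR2 (h1 : PR1_stmt) (A : Fm) (hA : AxF A) : ∃ X : List Fm, X.length ≤ 8 ∧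
    ∀ (Y : List Fm) (B : ℕ), X ⊆ Y → Y.length ≤ B → ∀ H, 2 ≤ H → AxB B H (rF H (prune Y A)) := by
  obtain ⟨_, hsub, _, hdep, _⟩ := h1
  have hd : ∀ (Y : List Fm) (B H : ℕ) (ψ : Fm), Y.length ≤ B → (rF H (prune Y ψ)).depth ≤ B := by
    intro Y B H ψ hl
    rw [BI_rF_depth]
    exact (hdep Y ψ).trans hl
  have hn : ∀ (Y : List Fm) (H : ℕ) (ψ : Fm), (rF H (prune Y ψ)).nest H 0 := fun Y H ψ =>
    BI_nest (BI_rF_md H _)
  cases hA with
  | basic hB =>
    refine ⟨PR2_cs A, PR2_bax A hB, fun Y B hY _ H hH => ?_⟩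
    rw [PR2_id Y A hY, BI_rF_id (BI_bax hH hB)]
    exact AxB.basic hB
  | ind ψ =>
    refine ⟨[(INDf ψ).sh,
      (Fm.and (ψ.inst .zero) (.all (.imp ψ (ψ.subst (scons (.succ (.var 0)) (fun i => .var (i + 1))))))).sh,
      (Fm.all (.imp ψ (ψ.subst (scons (.succ (.var 0)) (fun i => .var (i + 1)))))).sh,
      (Fm.imp ψ (ψ.subst (scons (.succ (.var 0)) (fun i => .var (i + 1))))).sh,
      (Fm.all ψ).sh], by simp, fun Y B hY hl H hH => ?_⟩
    have e : prune Y (INDf ψ) = INDf (prune Y ψ) := by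
      have m1 : (INDf ψ).sh ∈ Y := hY (by simp)
      have m2 : (Fm.and (ψ.inst .zero) (.all (.imp ψ (ψ.subst (scons (.succ (.var 0)) (fun i => .var (i + 1))))))).sh ∈ Y :=
        hY (by simp)
      have m3 : (Fm.all (.imp ψ (ψ.subst (scons (.succ (.var 0)) (fun i => .var (i + 1)))))).sh ∈ Y := hY (by simp)
      have m4 : (Fm.imp ψ (ψ.subst (scons (.succ (.var 0)) (fun i => .var (i + 1))))).sh ∈ Y := hY (by simp)
      have m5 : (Fm.all ψ).sh ∈ Y := hY (by simp)
      unfold INDf at m1 ⊢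
      rw [PR2_bin m1, PR2_bin m2, PR2_qu m3, PR2_bin m4, PR2_qu m5, hsub]
      unfold Fm.inst
      rw [hsub]
    rw [e, BI_rF_IND]
    exact AxB.ind _ (hd Y B H ψ hl) (hn Y H ψ)
  | leib ψ =>
    refine ⟨[(LEIBf ψ).sh,
      (Fm.all (.imp (.eq (.var 1) (.var 0))
        (.imp (ψ.subst (scons (.var 1) (fun i => .var (i + 2))))
          (ψ.subst (scons (.var 0) (fun i => .var (i + 2))))))).sh,
      (Fm.imp (.eq (.var 1) (.var 0))
        (.imp (ψ.subst (scons (.var 1) (fun i => .var (i + 2))))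
          (ψ.subst (scons (.var 0) (fun i => .var (i + 2)))))).sh,
      (Fm.imp (ψ.subst (scons (.var 1) (fun i => .var (i + 2))))
          (ψ.subst (scons (.var 0) (fun i => .var (i + 2))))).sh], by simp, fun Y B hY hl H hH => ?_⟩
    have e : prune Y (LEIBf ψ) = LEIBf (prune Y ψ) := by
      have m1 : (LEIBf ψ).sh ∈ Y := hY (by simp)
      have m2 : (Fm.all (.imp (.eq (.var 1) (.var 0))
        (.imp (ψ.subst (scons (.var 1) (fun i => .var (i + 2))))
          (ψ.subst (scons (.var 0) (fun i => .var (i + 2))))))).sh ∈ Y := hY (by simp)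
      have m3 : (Fm.imp (.eq (.var 1) (.var 0))
        (.imp (ψ.subst (scons (.var 1) (fun i => .var (i + 2))))
          (ψ.subst (scons (.var 0) (fun i => .var (i + 2)))))).sh ∈ Y := hY (by simp)
      have m4 : (Fm.imp (ψ.subst (scons (.var 1) (fun i => .var (i + 2))))
          (ψ.subst (scons (.var 0) (fun i => .var (i + 2))))).sh ∈ Y := hY (by simp)
      unfold LEIBf at m1 ⊢
      rw [PR2_qu m1, PR2_qu m2, PR2_bin m3, PR2_bin m4, hsub, hsub]
      rfl
    rw [e, BI_rF_LEIB]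
    exact AxB.leib _ (hd Y B H ψ hl) (hn Y H ψ)
  | lnp ψ =>
    refine ⟨[(LNPf ψ).sh, (Fm.ex ψ).sh,
      (Fm.ex (.and ψ (.all (.imp (ltf (.var 0) (.var 1))
        (.neg (ψ.subst (scons (.var 0) (fun i => .var (i + 2))))))))).sh,
      (Fm.and ψ (.all (.imp (ltf (.var 0) (.var 1))
        (.neg (ψ.subst (scons (.var 0) (fun i => .var (i + 2)))))))).sh,
      (Fm.all (.imp (ltf (.var 0) (.var 1))
        (.neg (ψ.subst (scons (.var 0) (fun i => .var (i + 2))))))).sh,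
      (Fm.imp (ltf (.var 0) (.var 1))
        (.neg (ψ.subst (scons (.var 0) (fun i => .var (i + 2)))))).sh,
      (ltf (.var 0) (.var 1)).sh,
      (Fm.neg (ψ.subst (scons (.var 0) (fun i => .var (i + 2))))).sh], by simp, fun Y B hY hl H hH => ?_⟩
    have e : prune Y (LNPf ψ) = LNPf (prune Y ψ) := by
      have m1 : (LNPf ψ).sh ∈ Y := hY (by simp)
      have m2 : (Fm.ex ψ).sh ∈ Y := hY (by simp)
      have m3 : (Fm.ex (.and ψ (.all (.imp (ltf (.var 0) (.var 1))
        (.neg (ψ.subst (scons (.var 0) (fun i => .var (i + 2))))))))).sh ∈ Y := hY (by simp)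
      have m4 : (Fm.and ψ (.all (.imp (ltf (.var 0) (.var 1))
        (.neg (ψ.subst (scons (.var 0) (fun i => .var (i + 2)))))))).sh ∈ Y := hY (by simp)
      have m5 : (Fm.all (.imp (ltf (.var 0) (.var 1))
        (.neg (ψ.subst (scons (.var 0) (fun i => .var (i + 2))))))).sh ∈ Y := hY (by simp)
      have m6 : (Fm.imp (ltf (.var 0) (.var 1))
        (.neg (ψ.subst (scons (.var 0) (fun i => .var (i + 2)))))).sh ∈ Y := hY (by simp)
      have m7 : (ltf (.var 0) (.var 1)).sh ∈ Y := hY (by simp)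
      have m8 : (Fm.neg (ψ.subst (scons (.var 0) (fun i => .var (i + 2))))).sh ∈ Y := hY (by simp)
      have e7 : prune Y (ltf (.var 0) (.var 1)) = ltf (.var 0) (.var 1) := by
        unfold ltf at m7 ⊢
        rw [PR2_qu m7]
        rfl
      unfold LNPf at m1 ⊢
      rw [PR2_bin m1, PR2_qu m2, PR2_qu m3, PR2_bin m4, PR2_qu m5, PR2_bin m6, e7, PR2_bin m8, hsub]
      rfl
    rw [e, BI_rF_LNP hH]
    exact AxB.lnp _

/-! ### Derivations -/

private theorem BI_bin (Y : List Fm) (H : ℕ) (c : Conn) (A B : Fm) (h : (Fm.bin c A B).sh ∈ Y) :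
    rF H (prune Y (.bin c A B)) = .bin c (rF H (prune Y A)) (rF H (prune Y B)) := by
  rw [PR2_bin h, rF]

private theorem BI_qu (Y : List Fm) (H : ℕ) (q : Quant) (A : Fm) (h : (Fm.qu q A).sh ∈ Y) :
    rF H (prune Y (.qu q A)) = .qu q (rF H (prune Y A)) := by
  rw [PR2_qu h, rF]

theorem BI_PG (h1 : GW_stmt) (h2 : PR1_stmt) : ∀ (K n : ℕ) (Γ Δ : List Fm), LKI K AxF n Γ Δ →
    ∃ X : List Fm, X.length ≤ 8 * n ∧ ∀ (Y : List Fm) (B : ℕ), X ⊆ Y → Y.length ≤ B →
      ∃ L : List ℕ, L.length ≤ n * 2 ^ (B + 1) ∧ ∀ H, 2 ≤ H → gap H K L →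
        GC (AxB B H) n (Γ.map (fun A => rF H (prune Y A))) (Δ.map (fun A => rF H (prune Y A))) := by
  have h3 := BI_PR2 h2
  obtain ⟨-, hsub, hnest, hdep, -⟩ := h2
  have hinst : ∀ (Y : List Fm) (A : Fm) (t : Tm), prune Y (A.inst t) = (prune Y A).inst t :=
    fun Y A t => hsub Y A _
  have hshift : ∀ (Y : List Fm) (H : ℕ) (A : Fm), rF H (prune Y A.shift) = (rF H (prune Y A)).shift := by
    intro Y H A
    have e : prune Y A.shift = (prune Y A).shift := hsub Y A _
    rw [e, BI_rF_shift]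
  have hmap : ∀ (Y : List Fm) (H : ℕ) (Γ : List Fm), (Γ.map Fm.shift).map (fun A => rF H (prune Y A)) =
      (Γ.map (fun A => rF H (prune Y A))).map Fm.shift := by
    intro Y H Γ
    rw [List.map_map, List.map_map]
    apply List.map_congr_left
    intro A _
    exact hshift Y H A
  have hlen : ∀ (Y : List Fm) (B : ℕ) (A : Fm), Y.length ≤ B → (prune Y A).deps.length ≤ 2 ^ (B + 1) := by
    intro Y B A hl
    refine (BI_deps_len _).trans (Nat.pow_le_pow_right (by norm_num) ?_)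
    have := (hdep Y A).trans hl
    omega
  have gw : ∀ {Ax : Fm → Prop} {n n' : ℕ} {Γ Δ Γ' Δ' : List Fm}, GC Ax n Γ Δ → n ≤ n' → Γ ⊆ Γ' → Δ ⊆ Δ' →
      GC Ax n' Γ' Δ' := fun h hn hΓ hΔ => h1 _ _ _ _ _ _ _ _ (fun _ h => h) h hn hΓ hΔ
  have sc : ∀ {a b : Fm} {l : List Fm}, a :: l ⊆ a :: b :: l := by
    intro a b l x hx
    rcases List.mem_cons.1 hx with h | h
    · exact h ▸ List.mem_cons_self
    · exact List.mem_cons_of_mem _ (List.mem_cons_of_mem _ h)
  have sc2 : ∀ {a a' b : Fm} {l : List Fm}, a :: a' :: l ⊆ a :: a' :: b :: l := by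
    intro a a' b l x hx
    rcases List.mem_cons.1 hx with h | h
    · exact h ▸ List.mem_cons_self
    · rcases List.mem_cons.1 h with h | h
      · exact h ▸ List.mem_cons_of_mem _ List.mem_cons_self
      · exact List.mem_cons_of_mem _ (List.mem_cons_of_mem _ (List.mem_cons_of_mem _ h))
  have sb : ∀ {b : Fm} {l : List Fm}, l ⊆ b :: l := fun {b l} => List.subset_cons_self b l
  have ga : ∀ {H K : ℕ} {L1 L2 : List ℕ}, gap H K (L1 ++ L2) → gap H K L1 ∧ gap H K L2 :=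
    fun h => ⟨fun l hl => h l (List.mem_append_left _ hl), fun l hl => h l (List.mem_append_right _ hl)⟩
  have p1 : ∀ n B : ℕ, n * 2 ^ (B + 1) ≤ (n + 1) * 2 ^ (B + 1) := fun n B =>
    Nat.mul_le_mul_right _ (Nat.le_succ n)
  have p2 : ∀ m n B : ℕ, m * 2 ^ (B + 1) + n * 2 ^ (B + 1) ≤ (m + n + 1) * 2 ^ (B + 1) := by
    intro m n B
    rw [← Nat.add_mul]
    exact Nat.mul_le_mul_right _ (Nat.le_succ _)
  have p3 : ∀ n B : ℕ, 2 ^ (B + 1) + n * 2 ^ (B + 1) = (n + 1) * 2 ^ (B + 1) := by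
    intro n B; ring
  intro K n Γ Δ h
  induction h with
  | id A =>
    exact ⟨[], by simp, fun Y B _ _ => ⟨[], by simp, fun H _ _ =>
      GC.id (A := rF H (prune Y A)) (by simp) (by simp)⟩⟩
  | @ax A hA =>
    obtain ⟨X, hX1, hX2⟩ := h3 A hA
    exact ⟨X, by omega, fun Y B hY hB => ⟨[], by simp, fun H hH _ =>
      GC.ax (hX2 Y B hY hB H hH) (by simp)⟩⟩
  | botL =>
    exact ⟨[], by simp, fun Y B _ _ => ⟨[], by simp, fun H _ _ => GC.botL (by simp [prune, rF])⟩⟩
  | @struct n Γ Δ Γ' Δ' _ hΓ hΔ ih =>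
    obtain ⟨X, hX1, hX2⟩ := ih
    refine ⟨X, by omega, fun Y B hY hB => ?_⟩
    obtain ⟨L, hL, hg⟩ := hX2 Y B hY hB
    exact ⟨L, hL.trans (p1 n B), fun H hH hgap => gw (hg H hH hgap) (Nat.le_succ _)
      (List.map_subset _ hΓ) (List.map_subset _ hΔ)⟩
  | @cut m n Γ Δ A _ _ ih1 ih2 =>
    obtain ⟨X1, hX1, hX1'⟩ := ih1
    obtain ⟨X2, hX2, hX2'⟩ := ih2
    refine ⟨X1 ++ X2, by rw [List.length_append]; omega, fun Y B hY hB => ?_⟩
    have hY1 : X1 ⊆ Y := fun x hx => hY (List.mem_append_left _ hx)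
    have hY2 : X2 ⊆ Y := fun x hx => hY (List.mem_append_right _ hx)
    obtain ⟨L1, hL1, hg1⟩ := hX1' Y B hY1 hB
    obtain ⟨L2, hL2, hg2⟩ := hX2' Y B hY2 hB
    refine ⟨L1 ++ L2, by rw [List.length_append]; exact (Nat.add_le_add hL1 hL2).trans (p2 m n B),
      fun H hH hgap => ?_⟩
    exact GC.cut (rF H (prune Y A)) (gw (hg1 H hH (ga hgap).1) (by omega) (fun _ h => h) (fun _ h => h))
      (gw (hg2 H hH (ga hgap).2) (by omega) (fun _ h => h) (fun _ h => h))
  | @andL n Γ Δ A B' _ ih =>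
    obtain ⟨X, hX1, hX2⟩ := ih
    refine ⟨(Fm.and A B').sh :: X, by rw [List.length_cons]; omega, fun Y B hY hB => ?_⟩
    obtain ⟨L, hL, hg⟩ := hX2 Y B (fun x hx => hY (List.mem_cons_of_mem _ hx)) hB
    refine ⟨L, hL.trans (p1 n B), fun H hH hgap => ?_⟩
    have e := BI_bin Y H .and A B' (hY List.mem_cons_self)
    rw [List.map_cons, e]
    exact GC.andL (A := rF H (prune Y A)) (B := rF H (prune Y B')) List.mem_cons_self
      (gw (hg H hH hgap) le_rfl sc2 (fun _ h => h))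
  | @andR m n Γ Δ A B' _ _ ih1 ih2 =>
    obtain ⟨X1, hX1, hX1'⟩ := ih1
    obtain ⟨X2, hX2, hX2'⟩ := ih2
    refine ⟨(Fm.and A B').sh :: (X1 ++ X2), by rw [List.length_cons, List.length_append]; omega, fun Y B hY hB => ?_⟩
    have hY1 : X1 ⊆ Y := fun x hx => hY (List.mem_cons_of_mem _ (List.mem_append_left _ hx))
    have hY2 : X2 ⊆ Y := fun x hx => hY (List.mem_cons_of_mem _ (List.mem_append_right _ hx))
    obtain ⟨L1, hL1, hg1⟩ := hX1' Y B hY1 hB
    obtain ⟨L2, hL2, hg2⟩ := hX2' Y B hY2 hB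
    refine ⟨L1 ++ L2, by rw [List.length_append]; exact (Nat.add_le_add hL1 hL2).trans (p2 m n B),
      fun H hH hgap => ?_⟩
    have e := BI_bin Y H .and A B' (hY List.mem_cons_self)
    rw [List.map_cons, e]
    exact GC.andR (A := rF H (prune Y A)) (B := rF H (prune Y B')) List.mem_cons_self
      (gw (hg1 H hH (ga hgap).1) (by omega) (fun _ h => h) sc)
      (gw (hg2 H hH (ga hgap).2) (by omega) (fun _ h => h) sc)
  | @orL m n Γ Δ A B' _ _ ih1 ih2 =>
    obtain ⟨X1, hX1, hX1'⟩ := ih1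
    obtain ⟨X2, hX2, hX2'⟩ := ih2
    refine ⟨(Fm.or A B').sh :: (X1 ++ X2), by rw [List.length_cons, List.length_append]; omega, fun Y B hY hB => ?_⟩
    have hY1 : X1 ⊆ Y := fun x hx => hY (List.mem_cons_of_mem _ (List.mem_append_left _ hx))
    have hY2 : X2 ⊆ Y := fun x hx => hY (List.mem_cons_of_mem _ (List.mem_append_right _ hx))
    obtain ⟨L1, hL1, hg1⟩ := hX1' Y B hY1 hB
    obtain ⟨L2, hL2, hg2⟩ := hX2' Y B hY2 hB
    refine ⟨L1 ++ L2, by rw [List.length_append]; exact (Nat.add_le_add hL1 hL2).trans (p2 m n B),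
      fun H hH hgap => ?_⟩
    have e := BI_bin Y H .or A B' (hY List.mem_cons_self)
    rw [List.map_cons, e]
    exact GC.orL (A := rF H (prune Y A)) (B := rF H (prune Y B')) List.mem_cons_self
      (gw (hg1 H hH (ga hgap).1) (by omega) sc (fun _ h => h))
      (gw (hg2 H hH (ga hgap).2) (by omega) sc (fun _ h => h))
  | @orR n Γ Δ A B' _ ih =>
    obtain ⟨X, hX1, hX2⟩ := ih
    refine ⟨(Fm.or A B').sh :: X, by rw [List.length_cons]; omega, fun Y B hY hB => ?_⟩
    obtain ⟨L, hL, hg⟩ := hX2 Y B (fun x hx => hY (List.mem_cons_of_mem _ hx)) hB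
    refine ⟨L, hL.trans (p1 n B), fun H hH hgap => ?_⟩
    have e := BI_bin Y H .or A B' (hY List.mem_cons_self)
    rw [List.map_cons, e]
    exact GC.orR (A := rF H (prune Y A)) (B := rF H (prune Y B')) List.mem_cons_self
      (gw (hg H hH hgap) le_rfl (fun _ h => h) sc2)
  | @impL m n Γ Δ A B' _ _ ih1 ih2 =>
    obtain ⟨X1, hX1, hX1'⟩ := ih1
    obtain ⟨X2, hX2, hX2'⟩ := ih2
    refine ⟨(Fm.imp A B').sh :: (X1 ++ X2), by rw [List.length_cons, List.length_append]; omega, fun Y B hY hB => ?_⟩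
    have hY1 : X1 ⊆ Y := fun x hx => hY (List.mem_cons_of_mem _ (List.mem_append_left _ hx))
    have hY2 : X2 ⊆ Y := fun x hx => hY (List.mem_cons_of_mem _ (List.mem_append_right _ hx))
    obtain ⟨L1, hL1, hg1⟩ := hX1' Y B hY1 hB
    obtain ⟨L2, hL2, hg2⟩ := hX2' Y B hY2 hB
    refine ⟨L1 ++ L2, by rw [List.length_append]; exact (Nat.add_le_add hL1 hL2).trans (p2 m n B),
      fun H hH hgap => ?_⟩
    have e := BI_bin Y H .imp A B' (hY List.mem_cons_self)
    rw [List.map_cons, e]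
    exact GC.impL (A := rF H (prune Y A)) (B := rF H (prune Y B')) List.mem_cons_self
      (gw (hg1 H hH (ga hgap).1) (by omega) sb (fun _ h => h))
      (gw (hg2 H hH (ga hgap).2) (by omega) sc (fun _ h => h))
  | @impR n Γ Δ A B' _ ih =>
    obtain ⟨X, hX1, hX2⟩ := ih
    refine ⟨(Fm.imp A B').sh :: X, by rw [List.length_cons]; omega, fun Y B hY hB => ?_⟩
    obtain ⟨L, hL, hg⟩ := hX2 Y B (fun x hx => hY (List.mem_cons_of_mem _ hx)) hB
    refine ⟨L, hL.trans (p1 n B), fun H hH hgap => ?_⟩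
    have e := BI_bin Y H .imp A B' (hY List.mem_cons_self)
    rw [List.map_cons, e]
    exact GC.impR (A := rF H (prune Y A)) (B := rF H (prune Y B')) List.mem_cons_self
      (gw (hg H hH hgap) le_rfl (fun _ h => h) sc)
  | @allL n Γ Δ A t ht _ ih =>
    obtain ⟨X, hX1, hX2⟩ := ih
    refine ⟨(Fm.all A).sh :: X, by rw [List.length_cons]; omega, fun Y B hY hB => ?_⟩
    obtain ⟨L, hL, hg⟩ := hX2 Y B (fun x hx => hY (List.mem_cons_of_mem _ hx)) hB
    refine ⟨(prune Y A).deps ++ L, by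
      rw [List.length_append, ← p3]
      exact Nat.add_le_add (hlen Y B A hB) hL, fun H hH hgap => ?_⟩
    have e := BI_qu Y H .all A (hY List.mem_cons_self)
    have hX := hg H hH (ga hgap).2
    have ht' : t.dep ≤ K ∨ (prune Y A).nest 0 0 := ht.imp_right (hnest Y A 0 0)
    rw [List.map_cons, hinst, BI_rF_inst ht' (ga hgap).1] at hX
    rw [List.map_cons, e]
    exact GC.allL (A := rF H (prune Y A)) (rT H t) List.mem_cons_self (gw hX le_rfl sc (fun _ h => h))
  | @allR n Γ Δ A _ ih =>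
    obtain ⟨X, hX1, hX2⟩ := ih
    refine ⟨(Fm.all A).sh :: X, by rw [List.length_cons]; omega, fun Y B hY hB => ?_⟩
    obtain ⟨L, hL, hg⟩ := hX2 Y B (fun x hx => hY (List.mem_cons_of_mem _ hx)) hB
    refine ⟨L, hL.trans (p1 n B), fun H hH hgap => ?_⟩
    have e := BI_qu Y H .all A (hY List.mem_cons_self)
    have hX := hg H hH hgap
    rw [List.map_cons, hmap, hmap] at hX
    rw [List.map_cons, e]
    exact GC.allR (A := rF H (prune Y A)) List.mem_cons_self (gw hX le_rfl (fun _ h => h) (by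
      rw [List.map_cons]
      exact sc))
  | @exL n Γ Δ A _ ih =>
    obtain ⟨X, hX1, hX2⟩ := ih
    refine ⟨(Fm.ex A).sh :: X, by rw [List.length_cons]; omega, fun Y B hY hB => ?_⟩
    obtain ⟨L, hL, hg⟩ := hX2 Y B (fun x hx => hY (List.mem_cons_of_mem _ hx)) hB
    refine ⟨L, hL.trans (p1 n B), fun H hH hgap => ?_⟩
    have e := BI_qu Y H .ex A (hY List.mem_cons_self)
    have hX := hg H hH hgap
    rw [List.map_cons, hmap, hmap] at hX
    rw [List.map_cons, e]
    exact GC.exL (A := rF H (prune Y A)) List.mem_cons_self (gw hX le_rfl (by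
      rw [List.map_cons]
      exact sc) (fun _ h => h))
  | @exR n Γ Δ A t ht _ ih =>
    obtain ⟨X, hX1, hX2⟩ := ih
    refine ⟨(Fm.ex A).sh :: X, by rw [List.length_cons]; omega, fun Y B hY hB => ?_⟩
    obtain ⟨L, hL, hg⟩ := hX2 Y B (fun x hx => hY (List.mem_cons_of_mem _ hx)) hB
    refine ⟨(prune Y A).deps ++ L, by
      rw [List.length_append, ← p3]
      exact Nat.add_le_add (hlen Y B A hB) hL, fun H hH hgap => ?_⟩
    have e := BI_qu Y H .ex A (hY List.mem_cons_self)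
    have hX := hg H hH (ga hgap).2
    have ht' : t.dep ≤ K ∨ (prune Y A).nest 0 0 := ht.imp_right (hnest Y A 0 0)
    rw [List.map_cons, hinst, BI_rF_inst ht' (ga hgap).1] at hX
    rw [List.map_cons, e]
    exact GC.exR (A := rF H (prune Y A)) (rT H t) List.mem_cons_self (gw hX le_rfl (fun _ h => h) sc)

end Pool.Agent.KR
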