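import Pool.Agent.helper97.KR2.Defs
import Pool.Agent.helper6.KR.SpecB

/-!
# Reduction of deep terms
-/

set_option autoImplicit false

namespace Pool.Agent.KR

/-- Terms of the form `S^e(x)`. -/
def Tm.isV : Tm → Prop
  | .var _ => True
  | .zero => False
  | .succ t => t.isV
  | .op _ _ _ => False

/-- A term `S^e(s ∘ t)` of depth greater than `H` is replaced by `S^e(0)`. -/
def rT (H : ℕ) : Tm → Tm
  | .var i => .var i
  | .zero => .zero
  | .succ t => .succ (rT H t)
  | .op o s t => if (Tm.op o s t).dep ≤ H then .op o s t else .zero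

/-- All atoms reduced. -/
def rF (H : ℕ) : Fm → Fm
  | .eq s t => .eq (rT H s) (rT H t)
  | .bot => .bot
  | .bin c A B => .bin c (rF H A) (rF H B)
  | .qu q A => .qu q (rF H A)

/-- The depths of the terms of a formula. -/
def Fm.deps : Fm → List ℕ
  | .eq s t => [s.dep, t.dep]
  | .bot => []
  | .bin _ A B => A.deps ++ B.deps
  | .qu _ A => A.deps

/-- The greatest depth of a term of a formula. -/
def Fm.md : Fm → ℕ
  | .eq s t => max s.dep t.dep
  | .bot => 0
  | .bin _ A B => max A.md B.md
  | .qu _ A => A.md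

/-- No depth in `L` lies in the interval `(H - K, H]`. -/
def gap (H K : ℕ) (L : List ℕ) : Prop := ∀ l ∈ L, l ≤ H → l + K ≤ H

/-- The substitution does not move the term `t` over the threshold. -/
def TOK (H : ℕ) (σ : ℕ → Tm) (t : Tm) : Prop := t.dep ≤ H → t.isV ∨ (t.subst σ).dep ≤ H

/-- The same for all terms of a formula. -/
def FOK (H : ℕ) : (ℕ → Tm) → Fm → Prop
  | σ, .eq s t => TOK H σ s ∧ TOK H σ t
  | _, .bot => True
  | σ, .bin _ A B => FOK H σ A ∧ FOK H σ B
  | σ, .qu _ A => FOK H (up σ) A

/-! ### Terms -/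

theorem BI_rT_id {H : ℕ} {t : Tm} (h : t.dep ≤ H) : rT H t = t := by
  induction t with
  | var i => rfl
  | zero => rfl
  | succ t ih => rw [rT, ih h]
  | op o s t _ _ => rw [rT, if_pos h]

theorem BI_rT_dep (H : ℕ) (t : Tm) : (rT H t).dep ≤ H := by
  induction t with
  | var i => exact Nat.zero_le _
  | zero => exact Nat.zero_le _
  | succ t ih => exact ih
  | op o s t _ _ =>
    rw [rT]
    split_ifs with h
    · exact h
    · exact Nat.zero_le _

theorem BI_dep_le (t : Tm) (σ : ℕ → Tm) : t.dep ≤ (t.subst σ).dep := by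
  induction t with
  | var i => exact Nat.zero_le _
  | zero => exact Nat.zero_le _
  | succ t ih => exact ih
  | op o s t ihs iht =>
    simp only [Tm.dep, Tm.subst]
    omega

theorem BI_dep_add (K : ℕ) (t : Tm) (σ : ℕ → Tm) (h : ∀ i, (σ i).dep ≤ K) :
    (t.subst σ).dep ≤ t.dep + K := by
  induction t with
  | var i =>
    simp only [Tm.dep, Tm.subst, Nat.zero_add]
    exact h i
  | zero => exact Nat.zero_le _
  | succ t ih => exact ih
  | op o s t ihs iht =>
    simp only [Tm.dep, Tm.subst]
    omega

theorem BI_subst_rT {H : ℕ} {t : Tm} {σ : ℕ → Tm} (h : (t.subst σ).dep ≤ H) :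
    t.subst (fun i => rT H (σ i)) = t.subst σ := by
  induction t with
  | var i => exact BI_rT_id h
  | zero => rfl
  | succ t ih =>
    simp only [Tm.subst]
    rw [ih h]
  | op o s t ihs iht =>
    simp only [Tm.dep, Tm.subst] at h ⊢
    rw [ihs (by omega), iht (by omega)]

theorem BI_rT_subst {H : ℕ} {t : Tm} {σ : ℕ → Tm} (h : TOK H σ t) :
    rT H (t.subst σ) = (rT H t).subst (fun i => rT H (σ i)) := by
  induction t with
  | var i => rfl
  | zero => rfl
  | succ t ih =>
    have h' : TOK H σ t := h
    simp only [Tm.subst, rT]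
    rw [ih h']
  | op o s t _ _ =>
    by_cases hd : (Tm.op o s t).dep ≤ H
    · rcases h hd with hv | hs
      · exact hv.elim
      · have e1 : rT H (Tm.op o s t) = Tm.op o s t := BI_rT_id hd
        rw [e1, BI_subst_rT hs, BI_rT_id hs]
    · have e1 : rT H (Tm.op o s t) = .zero := by rw [rT, if_neg hd]
      have e2 : rT H ((Tm.op o s t).subst σ) = .zero := by
        have h3 := BI_dep_le (Tm.op o s t) σ
        have h4 : ¬ ((Tm.op o s t).subst σ).dep ≤ H := by omega
        simp only [Tm.subst] at h4 ⊢
        rw [rT, if_neg h4]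
      rw [e1, e2]
      rfl

theorem BI_dep_shift (t : Tm) : t.shift.dep = t.dep := by
  unfold Tm.shift
  have h1 := BI_dep_add 0 t (fun i => .var (i + 1)) (fun i => le_rfl)
  have h2 := BI_dep_le t (fun i => .var (i + 1))
  omega

theorem BI_rT_shift (H : ℕ) (t : Tm) : rT H t.shift = (rT H t).shift := by
  have h : TOK H (fun i => .var (i + 1)) t := by
    intro hd
    right
    have h2 : t.shift.dep = t.dep := BI_dep_shift t
    unfold Tm.shift at h2
    rw [h2]; exact hd
  unfold Tm.shift
  rw [BI_rT_subst h]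
  rfl

theorem BI_up (H : ℕ) (σ : ℕ → Tm) : (fun i => rT H (up σ i)) = up (fun i => rT H (σ i)) := by
  funext i
  cases i with
  | zero => rfl
  | succ i => exact BI_rT_shift H (σ i)

/-! ### Formulas -/

theorem BI_rF_subst {H : ℕ} {A : Fm} : ∀ {σ : ℕ → Tm}, FOK H σ A →
    rF H (A.subst σ) = (rF H A).subst (fun i => rT H (σ i)) := by
  induction A with
  | eq s t =>
    intro σ h
    simp only [Fm.subst, rF]
    rw [BI_rT_subst h.1, BI_rT_subst h.2]
  | bot => intro σ _; rfl
  | bin c A B ihA ihB =>
    intro σ h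
    simp only [Fm.subst, rF]
    rw [ihA h.1, ihB h.2]
  | qu q A ih =>
    intro σ h
    simp only [Fm.subst, rF]
    rw [ih h, BI_up]

theorem BI_FOK_zero {H : ℕ} {A : Fm} : ∀ {σ : ℕ → Tm}, (∀ i, (σ i).dep = 0) → FOK H σ A := by
  have key : ∀ (t : Tm) (σ : ℕ → Tm), (∀ i, (σ i).dep = 0) → TOK H σ t := by
    intro t σ h hd
    right
    have := BI_dep_add 0 t σ (fun i => (h i).le)
    omega
  induction A with
  | eq s t => exact fun h => ⟨key s _ h, key t _ h⟩
  | bot => exact fun _ => trivial
  | bin c A B ihA ihB => exact fun h => ⟨ihA h, ihB h⟩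
  | qu q A ih =>
    intro σ h
    refine ih (fun i => ?_)
    cases i with
    | zero => rfl
    | succ i =>
      show (σ i).shift.dep = 0
      rw [BI_dep_shift]; exact h i

theorem BI_FOK_gap {H K : ℕ} {A : Fm} : ∀ {σ : ℕ → Tm}, (∀ i, (σ i).dep ≤ K) → gap H K A.deps →
    FOK H σ A := by
  have key : ∀ (t : Tm) (σ : ℕ → Tm), (∀ i, (σ i).dep ≤ K) → (t.dep ≤ H → t.dep + K ≤ H) →
      TOK H σ t := by
    intro t σ h hg hd
    right
    have := BI_dep_add K t σ h
    have := hg hd
    omega
  induction A with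
  | eq s t =>
    intro σ h hg
    exact ⟨key s _ h (hg _ (by simp [Fm.deps])), key t _ h (hg _ (by simp [Fm.deps]))⟩
  | bot => exact fun _ _ => trivial
  | bin c A B ihA ihB =>
    intro σ h hg
    exact ⟨ihA h (fun l hl => hg l (List.mem_append_left _ hl)),
      ihB h (fun l hl => hg l (List.mem_append_right _ hl))⟩
  | qu q A ih =>
    intro σ h hg
    refine ih (fun i => ?_) hg
    cases i with
    | zero => exact Nat.zero_le _
    | succ i =>
      show (σ i).shift.dep ≤ K
      rw [BI_dep_shift]; exact h i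

theorem BI_occ {x : ℕ} {t : Tm} {σ : ℕ → Tm} (h : ∀ i, i ≠ x → (σ i).dep = 0) (ho : ¬ t.occ x) :
    (t.subst σ).dep = t.dep := by
  induction t with
  | var i => exact h i ho
  | zero => rfl
  | succ t ih => exact ih ho
  | op o s t ihs iht =>
    simp only [Tm.occ, not_or] at ho
    simp only [Tm.subst, Tm.dep]
    rw [ihs ho.1, iht ho.2]

theorem BI_FOK_nest {H : ℕ} {A : Fm} : ∀ {x : ℕ} {σ : ℕ → Tm}, (∀ i, i ≠ x → (σ i).dep = 0) →
    A.nest 0 x → FOK H σ A := by
  have key : ∀ (t : Tm) (x : ℕ) (σ : ℕ → Tm), (∀ i, i ≠ x → (σ i).dep = 0) → t.nest x 0 →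
      TOK H σ t := by
    intro t x σ h
    induction t with
    | var i => exact fun _ _ => Or.inl trivial
    | zero => exact fun _ _ => Or.inr (Nat.zero_le _)
    | succ t ih =>
      intro hn
      exact ih hn
    | op o s t _ _ =>
      intro hn hd
      right
      have ho : ¬ (Tm.op o s t).occ x := by
        simp only [Tm.occ, not_or]
        exact hn
      rw [BI_occ h ho]; exact hd
  induction A with
  | eq s t => exact fun h hn => ⟨key s _ _ h hn.1, key t _ _ h hn.2⟩
  | bot => exact fun _ _ => trivial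
  | bin c A B ihA ihB => exact fun h hn => ⟨ihA h hn.1, ihB h hn.2⟩
  | qu q A ih =>
    intro x σ h hn
    refine ih (x := x + 1) (fun i hi => ?_) hn
    cases i with
    | zero => rfl
    | succ i =>
      show (σ i).shift.dep = 0
      rw [BI_dep_shift]; exact h i (fun e => hi (by rw [e]))

/-- the reduction of an instance -/
theorem BI_rF_inst {H K : ℕ} {A : Fm} {t : Tm} (h : t.dep ≤ K ∨ A.nest 0 0) (hg : gap H K A.deps) :
    rF H (A.inst t) = (rF H A).inst (rT H t) := by
  have h1 : FOK H (scons t Tm.var) A := by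
    rcases h with h | h
    · refine BI_FOK_gap (K := K) (fun i => ?_) hg
      cases i with
      | zero => exact h
      | succ i => exact Nat.zero_le _
    · refine BI_FOK_nest (x := 0) (fun i hi => ?_) h
      cases i with
      | zero => exact absurd rfl hi
      | succ i => rfl
  unfold Fm.inst
  rw [BI_rF_subst h1]
  congr 1
  funext i
  cases i <;> rfl

theorem BI_rF_shift (H : ℕ) (A : Fm) : rF H A.shift = (rF H A).shift := by
  unfold Fm.shift
  rw [BI_rF_subst (BI_FOK_zero fun i => rfl)]
  rfl

theorem BI_rF_depth (H : ℕ) (A : Fm) : (rF H A).depth = A.depth := by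
  induction A with
  | eq s t => rfl
  | bot => rfl
  | bin c A B ihA ihB => simp only [rF, Fm.depth, ihA, ihB]
  | qu q A ih => simp only [rF, Fm.depth, ih]

theorem BI_deps_len (A : Fm) : A.deps.length ≤ 2 ^ (A.depth + 1) := by
  induction A with
  | eq s t => simp [Fm.deps, Fm.depth]
  | bot => simp [Fm.deps]
  | bin c A B ihA ihB =>
    simp only [Fm.deps, Fm.depth, List.length_append]
    have h1 : 2 ^ (A.depth + 1) ≤ 2 ^ (max A.depth B.depth + 1) :=
      Nat.pow_le_pow_right (by norm_num) (by omega)
    have h2 : 2 ^ (B.depth + 1) ≤ 2 ^ (max A.depth B.depth + 1) :=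
      Nat.pow_le_pow_right (by norm_num) (by omega)
    have h3 : 2 ^ (max A.depth B.depth + 1 + 1) = 2 ^ (max A.depth B.depth + 1) * 2 := pow_succ _ _
    omega
  | qu q A ih =>
    simp only [Fm.deps, Fm.depth]
    exact ih.trans (Nat.pow_le_pow_right (by norm_num) (by omega))

theorem BI_rF_md (H : ℕ) (A : Fm) : (rF H A).md ≤ H := by
  induction A with
  | eq s t => exact max_le (BI_rT_dep H s) (BI_rT_dep H t)
  | bot => exact Nat.zero_le _
  | bin c A B ihA ihB => exact max_le ihA ihB
  | qu q A ih => exact ih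

theorem BI_rF_id {H : ℕ} {A : Fm} (h : A.md ≤ H) : rF H A = A := by
  induction A with
  | eq s t =>
    have h' : max s.dep t.dep ≤ H := h
    simp only [rF]
    rw [BI_rT_id ((le_max_left _ _).trans h'), BI_rT_id ((le_max_right _ _).trans h')]
  | bot => rfl
  | bin c A B ihA ihB =>
    have h' : max A.md B.md ≤ H := h
    simp only [rF]
    rw [ihA ((le_max_left _ _).trans h'), ihB ((le_max_right _ _).trans h')]
  | qu q A ih =>
    simp only [rF]
    rw [ih h]

theorem BI_nestT {x : ℕ} {t : Tm} : ∀ {H : ℕ}, t.dep ≤ H → t.nest x H := by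
  induction t with
  | var i => exact fun _ => by simp [Tm.nest]
  | zero => exact fun _ => by simp [Tm.nest]
  | succ t ih =>
    intro H h
    simp only [Tm.nest]
    exact ih h
  | op o s t ihs iht =>
    intro H h
    simp only [Tm.dep] at h
    cases H with
    | zero => omega
    | succ H =>
      simp only [Tm.nest]
      exact ⟨ihs (by omega), iht (by omega)⟩

theorem BI_nest {H : ℕ} {A : Fm} : ∀ {x : ℕ}, A.md ≤ H → A.nest H x := by
  induction A with
  | eq s t =>
    intro x h
    have h' : max s.dep t.dep ≤ H := h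
    exact ⟨BI_nestT ((le_max_left _ _).trans h'), BI_nestT ((le_max_right _ _).trans h')⟩
  | bot => exact fun _ => trivial
  | bin c A B ihA ihB =>
    intro x h
    have h' : max A.md B.md ≤ H := h
    exact ⟨ihA ((le_max_left _ _).trans h'), ihB ((le_max_right _ _).trans h')⟩
  | qu q A ih => exact fun {x} h => ih (x := x + 1) h

theorem BI_nest_occ {x : ℕ} {t : Tm} : ∀ {K : ℕ}, ¬ t.occ x → t.nest x K := by
  induction t with
  | var i => exact fun _ => by simp [Tm.nest]
  | zero => exact fun _ => by simp [Tm.nest]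
  | succ t ih =>
    intro K h
    simp only [Tm.nest]
    exact ih h
  | op o s t ihs iht =>
    intro K h
    simp only [Tm.occ, not_or] at h
    cases K with
    | zero =>
      simp only [Tm.nest]
      exact h
    | succ K =>
      simp only [Tm.nest]
      exact ⟨ihs h.1, iht h.2⟩

theorem BI_nest_monoT {x : ℕ} {t : Tm} : ∀ {K K' : ℕ}, K ≤ K' → t.nest x K → t.nest x K' := by
  induction t with
  | var i => exact fun _ _ => by simp [Tm.nest]
  | zero => exact fun _ _ => by simp [Tm.nest]
  | succ t ih =>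
    intro K K' hK h
    simp only [Tm.nest] at h ⊢
    exact ih hK h
  | op o s t ihs iht =>
    intro K K' hK h
    cases K with
    | zero =>
      simp only [Tm.nest] at h
      refine BI_nest_occ ?_
      simp only [Tm.occ, not_or]
      exact h
    | succ K =>
      cases K' with
      | zero => omega
      | succ K' =>
        simp only [Tm.nest] at h ⊢
        exact ⟨ihs (by omega) h.1, iht (by omega) h.2⟩

theorem BI_nest_mono {A : Fm} : ∀ {x K K' : ℕ}, K ≤ K' → A.nest K x → A.nest K' x := by
  induction A with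
  | eq s t => exact fun hK h => ⟨BI_nest_monoT hK h.1, BI_nest_monoT hK h.2⟩
  | bot => exact fun _ _ => trivial
  | bin c A B ihA ihB => exact fun hK h => ⟨ihA hK h.1, ihB hK h.2⟩
  | qu q A ih => exact fun {x} {K} {K'} hK h => ih (x := x + 1) hK h

/-- a threshold with a gap -/
theorem BI_gap (h0 K N : ℕ) (L : List ℕ) (hL : L.length ≤ N) :
    ∃ H, h0 ≤ H ∧ H ≤ h0 + (N + 1) * (K + 1) ∧ gap H K L := by
  by_contra hcon
  push Not at hcon
  have h1 : ∀ i ∈ Finset.range (N + 1), ∃ l ∈ L, l ≤ h0 + i * (K + 1) ∧ h0 + i * (K + 1) < l + K := by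
    intro i hi
    rw [Finset.mem_range] at hi
    have h2 : i * (K + 1) ≤ (N + 1) * (K + 1) := Nat.mul_le_mul_right _ hi.le
    have h3 := hcon (h0 + i * (K + 1)) (Nat.le_add_right _ _) (by omega)
    unfold gap at h3
    push Not at h3
    exact h3
  choose! f hf1 hf2 hf3 using h1
  have hinj : Set.InjOn f (Finset.range (N + 1) : Set ℕ) := by
    have key : ∀ i j, i ∈ Finset.range (N + 1) → j ∈ Finset.range (N + 1) → i < j → f i ≠ f j := by
      intro i j hi hj hij he
      have h4 := hf2 i hi
      have h5 := hf3 j hj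
      rw [he] at h4
      have h6 : (i + 1) * (K + 1) ≤ j * (K + 1) := Nat.mul_le_mul_right _ hij
      have h7 : (i + 1) * (K + 1) = i * (K + 1) + (K + 1) := by ring
      omega
    intro i hi j hj he
    rcases lt_trichotomy i j with h | h | h
    · exact absurd he (key i j hi hj h)
    · exact h
    · exact absurd he.symm (key j i hj hi h)
  have h2 : (Finset.image f (Finset.range (N + 1))) ⊆ L.toFinset := by
    intro l hl
    obtain ⟨i, hi, rfl⟩ := Finset.mem_image.1 hl
    exact List.mem_toFinset.2 (hf1 i hi)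
  have h3 := Finset.card_le_card h2
  rw [Finset.card_image_of_injOn hinj, Finset.card_range] at h3
  have h4 := List.toFinset_card_le L
  omega

end Pool.Agent.KR
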